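import Pool.Agent.Work.MP_0eb8a1_h84.Interface

/-! # Block INJ (second copy, helper90) -/

set_option autoImplicit false

namespace Pool.Agent.Work.MP_0eb8a1_h84

namespace InjH90

lemma sup_mem {s : Multiset ℕ} (h : s ≠ 0) : s.sup ∈ s := by
  induction s using Multiset.induction_on with
  | empty => exact absurd rfl h
  | cons a s ih =>
    rw [Multiset.sup_cons, Multiset.mem_cons]
    by_cases hs : s = 0
    · subst hs; left; simp
    · rcases le_total a s.sup with h1 | h1
      · right; rw [sup_eq_right.2 h1]; exact ih hs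
      · left; exact sup_eq_left.2 h1

lemma card_of {n M : ℕ} {s : Multiset ℕ} (h : s ∈ GS n M) : s.card = n := by
  obtain ⟨⟨G, hG⟩, -⟩ := h
  rw [← hG]
  simp [degs]

lemma fin_GS (n M : ℕ) : (GS n M).Finite := by
  refine (Set.finite_range (fun G : SimpleGraph (Fin n) => degs G)).subset ?_
  rintro s ⟨⟨G, hG⟩, -⟩
  exact ⟨G, hG⟩

/-- first kind -/
noncomputable def p1 (s : Multiset ℕ) : Multiset ℕ :=
  (s.sup + 1) ::ₘ 1 ::ₘ ((s.erase s.sup).erase 0)

/-- the new partition -/
noncomputable def mu (T : Multiset ℕ → Multiset ℕ) (l : Multiset ℕ) : Multiset ℕ :=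
  if l.sup ≤ 1 then l + Multiset.replicate 3 1 else
    if l.sup ≤ l.card then l.sup ::ₘ l else (T l).sup ::ₘ 1 ::ₘ T l

lemma decomp {n M : ℕ} (hn : 3 ≤ n) {s : Multiset ℕ} (h : s ∈ GS n M) (h0 : 0 ∈ s) :
    s = s.sup ::ₘ 0 ::ₘ ((s.erase s.sup).erase 0) := by
  have hne : s ≠ 0 := by rintro rfl; simp at h0
  have hs := sup_mem hne
  have h1 : 0 ∈ s.erase s.sup := by
    by_cases hz : s.sup = 0
    · rw [hz]
      have hall : s = Multiset.replicate n 0 := by
        rw [Multiset.eq_replicate]
        refine ⟨card_of h, fun b hb => ?_⟩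
        have := Multiset.le_sup hb
        omega
      rw [hall]
      obtain ⟨m, rfl⟩ : ∃ m, n = m + 2 := ⟨n - 2, by omega⟩
      rw [Multiset.replicate_succ, Multiset.erase_cons_head, Multiset.replicate_succ]
      exact Multiset.mem_cons_self _ _
    · exact (Multiset.mem_erase_of_ne (fun h => hz h.symm)).2 h0
  rw [Multiset.cons_erase h1, Multiset.cons_erase hs]

lemma p1_mem (hCL2 : S_CL2) {n M : ℕ} (hn : 3 ≤ n) {s : Multiset ℕ} (h : s ∈ GS n M)
    (h0 : 0 ∈ s) : p1 s ∈ GS n (M + 1) := by
  have hd := decomp hn h h0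
  refine ⟨hCL2 n _ _ (hd ▸ h.1), ?_⟩
  have h1 := h.2
  rw [hd] at h1
  unfold p1
  simp only [Multiset.sum_cons] at h1 ⊢
  omega

lemma le_t {s : Multiset ℕ} {y : ℕ} (hy : y ∈ (s.erase s.sup).erase 0) : y ≤ s.sup :=
  Multiset.le_sup (Multiset.mem_of_mem_erase (Multiset.mem_of_mem_erase hy))

lemma p1_sup (s : Multiset ℕ) : (p1 s).sup = s.sup + 1 := by
  unfold p1
  apply le_antisymm
  · rw [Multiset.sup_le]
    intro b hb
    rw [Multiset.mem_cons, Multiset.mem_cons] at hb
    rcases hb with rfl | rfl | hb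
    · exact le_rfl
    · omega
    · have := le_t hb; omega
  · exact Multiset.le_sup (Multiset.mem_cons_self _ _)

lemma p1_inj {n M : ℕ} (hn : 3 ≤ n) {s s' : Multiset ℕ} (h : s ∈ GS n M) (h0 : 0 ∈ s)
    (h' : s' ∈ GS n M) (h0' : 0 ∈ s') (he : p1 s = p1 s') : s = s' := by
  have h1 : s.sup = s'.sup := by
    have := congrArg Multiset.sup he
    rw [p1_sup, p1_sup] at this
    omega
  have h2 : (s.erase s.sup).erase 0 = (s'.erase s'.sup).erase 0 := by
    unfold p1 at he
    rw [h1, Multiset.cons_inj_right, Multiset.cons_inj_right] at he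
    rw [← he, h1]
  rw [decomp hn h h0, decomp hn h' h0', h2, h1]

lemma p1_count {s : Multiset ℕ} (x : ℕ) (hx : ∀ y ∈ p1 s, y ≤ x) (hx2 : 2 ≤ x) (hm : x ∈ p1 s) :
    (p1 s).count x ≤ 1 := by
  have h1 : x = s.sup + 1 := by
    apply le_antisymm
    · rw [← p1_sup]; exact Multiset.le_sup hm
    · exact hx _ (Multiset.mem_cons_self _ _)
  unfold p1
  rw [h1, Multiset.count_cons_self, Multiset.count_cons_of_ne (by omega),
    Multiset.count_eq_zero_of_notMem]
  intro hc
  have := le_t hc
  omega

lemma mu_pos {T : Multiset ℕ → Multiset ℕ} {l : Multiset ℕ} (hl : ∀ d ∈ l, 1 ≤ d)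
    (hT : ∀ d ∈ T l, 1 ≤ d) (hTs : (T l).sup = l.card) : ∀ d ∈ mu T l, 1 ≤ d := by
  intro d hd
  unfold mu at hd
  split_ifs at hd with h1 h2
  · rw [Multiset.mem_add] at hd
    rcases hd with hd | hd
    · exact hl d hd
    · rw [Multiset.eq_of_mem_replicate hd]
  · rw [Multiset.mem_cons] at hd
    rcases hd with rfl | hd
    · omega
    · exact hl d hd
  · rw [Multiset.mem_cons, Multiset.mem_cons] at hd
    have hne : l ≠ 0 := by rintro rfl; simp at h1
    have := Multiset.card_pos.2 hne
    rcases hd with rfl | rfl | hd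
    · omega
    · exact le_rfl
    · exact hT d hd

/-- The largest part of `mu` is there twice. -/
lemma mu_count {T : Multiset ℕ → Multiset ℕ} {l : Multiset ℕ} (hl : ∀ d ∈ l, 1 ≤ d)
    (hTs : (T l).sup = l.card) (hTc : (T l).card = l.sup) :
    2 ≤ (mu T l).count (mu T l).sup ∧ 1 ≤ (mu T l).sup := by
  unfold mu
  split_ifs with h1 h2
  · have hs : (l + Multiset.replicate 3 1).sup = 1 := by
      apply le_antisymm
      · rw [Multiset.sup_le]
        intro b hb
        rw [Multiset.mem_add] at hb
        rcases hb with hb | hb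
        · exact (Multiset.le_sup hb).trans h1
        · rw [Multiset.eq_of_mem_replicate hb]
      · refine Multiset.le_sup (Multiset.mem_add.2 (Or.inr ?_))
        exact Multiset.mem_replicate.2 ⟨by norm_num, rfl⟩
    rw [hs, Multiset.count_add, Multiset.count_replicate_self]
    omega
  · have hne : l ≠ 0 := by rintro rfl; simp at h1
    have hs : (l.sup ::ₘ l).sup = l.sup := by rw [Multiset.sup_cons, sup_idem]
    rw [hs, Multiset.count_cons_self]
    have := Multiset.count_pos.2 (sup_mem hne)
    omega
  · have hne : l ≠ 0 := by rintro rfl; simp at h1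
    have hc := Multiset.card_pos.2 hne
    have hTne : T l ≠ 0 := by
      intro h; rw [h] at hTc; simp at hTc; omega
    have hs : ((T l).sup ::ₘ 1 ::ₘ T l).sup = (T l).sup := by
      rw [Multiset.sup_cons, Multiset.sup_cons]
      apply le_antisymm
      · rw [sup_le_iff, sup_le_iff]
        exact ⟨le_rfl, by omega, le_rfl⟩
      · exact le_sup_left
    rw [hs, Multiset.count_cons_self]
    have h3 := Multiset.count_pos.2 (sup_mem hTne)
    have h4 : (T l).count (T l).sup ≤ (1 ::ₘ T l).count (T l).sup := by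
      rw [Multiset.count_cons]; omega
    omega

/-- The signature. -/
lemma mu_sig {T : Multiset ℕ → Multiset ℕ} {l : Multiset ℕ}
    (hTs : (T l).sup = l.card) (hTsum : (T l).sum = l.sum) :
    (l.sup ≤ 1 → (mu T l).sum = l.sum + 2 + (mu T l).sup) ∧
    (¬ l.sup ≤ 1 → l.sup ≤ l.card → (mu T l).sum = l.sum + (mu T l).sup) ∧
    (¬ l.sup ≤ 1 → ¬ l.sup ≤ l.card → (mu T l).sum = l.sum + 1 + (mu T l).sup) := by
  refine ⟨fun h1 => ?_, fun h1 h2 => ?_, fun h1 h2 => ?_⟩
  · have hs : (l + Multiset.replicate 3 1).sup = 1 := by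
      apply le_antisymm
      · rw [Multiset.sup_le]
        intro b hb
        rw [Multiset.mem_add] at hb
        rcases hb with hb | hb
        · exact (Multiset.le_sup hb).trans h1
        · rw [Multiset.eq_of_mem_replicate hb]
      · refine Multiset.le_sup (Multiset.mem_add.2 (Or.inr ?_))
        exact Multiset.mem_replicate.2 ⟨by norm_num, rfl⟩
    unfold mu
    rw [if_pos h1, hs, Multiset.sum_add, Multiset.sum_replicate]
    simp only [smul_eq_mul]
  · have hs : (l.sup ::ₘ l).sup = l.sup := by rw [Multiset.sup_cons, sup_idem]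
    unfold mu
    rw [if_neg h1, if_pos h2, hs, Multiset.sum_cons]
    omega
  · have hne : l ≠ 0 := by rintro rfl; simp at h1
    have hc := Multiset.card_pos.2 hne
    have hs : ((T l).sup ::ₘ 1 ::ₘ T l).sup = (T l).sup := by
      rw [Multiset.sup_cons, Multiset.sup_cons]
      apply le_antisymm
      · rw [sup_le_iff, sup_le_iff]
        exact ⟨le_rfl, by omega, le_rfl⟩
      · exact le_sup_left
    unfold mu
    rw [if_neg h1, if_neg h2, hs, Multiset.sum_cons, Multiset.sum_cons, hTsum]
    omega

lemma mu_inj {T : Multiset ℕ → Multiset ℕ} {l l' : Multiset ℕ}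
    (hTs : (T l).sup = l.card) (hTsum : (T l).sum = l.sum) (hTT : T (T l) = l)
    (hTs' : (T l').sup = l'.card) (hTsum' : (T l').sum = l'.sum) (hTT' : T (T l') = l')
    (hsum : l.sum = l'.sum) (he : mu T l = mu T l') : l = l' := by
  obtain ⟨a1, a2, a3⟩ := mu_sig hTs hTsum
  obtain ⟨b1, b2, b3⟩ := mu_sig hTs' hTsum'
  rw [he] at a1 a2 a3
  by_cases h1 : l.sup ≤ 1
  · have c1 := a1 h1
    by_cases h1' : l'.sup ≤ 1
    · unfold mu at he
      rw [if_pos h1, if_pos h1'] at he
      exact add_right_cancel he
    · exfalso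
      by_cases h2' : l'.sup ≤ l'.card
      · have := b2 h1' h2'; omega
      · have := b3 h1' h2'; omega
  · by_cases h2 : l.sup ≤ l.card
    · have c1 := a2 h1 h2
      by_cases h1' : l'.sup ≤ 1
      · exfalso; have := b1 h1'; omega
      · by_cases h2' : l'.sup ≤ l'.card
        · unfold mu at he
          rw [if_neg h1, if_pos h2, if_neg h1', if_pos h2'] at he
          have hs : l.sup = l'.sup := by
            have := congrArg Multiset.sup he
            rw [Multiset.sup_cons, sup_idem, Multiset.sup_cons, sup_idem] at this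
            exact this
          rw [hs, Multiset.cons_inj_right] at he
          exact he
        · exfalso; have := b3 h1' h2'; omega
    · have c1 := a3 h1 h2
      by_cases h1' : l'.sup ≤ 1
      · exfalso; have := b1 h1'; omega
      · by_cases h2' : l'.sup ≤ l'.card
        · exfalso; have := b2 h1' h2'; omega
        · unfold mu at he
          rw [if_neg h1, if_neg h2, if_neg h1', if_neg h2'] at he
          have hss : ∀ m : Multiset ℕ, 1 ≤ m.sup → (m.sup ::ₘ 1 ::ₘ m).sup = m.sup := by
            intro m hm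
            rw [Multiset.sup_cons, Multiset.sup_cons]
            apply le_antisymm
            · rw [sup_le_iff, sup_le_iff]
              exact ⟨le_rfl, hm, le_rfl⟩
            · exact le_sup_left
          have hne : l ≠ 0 := by rintro rfl; simp at h1
          have hc := Multiset.card_pos.2 hne
          have hne' : l' ≠ 0 := by rintro rfl; simp at h1'
          have hc' := Multiset.card_pos.2 hne'
          have hs : (T l).sup = (T l').sup := by
            have := congrArg Multiset.sup he
            rw [hss _ (by omega), hss _ (by omega)] at this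
            exact this
          rw [hs, Multiset.cons_inj_right, Multiset.cons_inj_right] at he
          rw [← hTT, ← hTT', he]

end InjH90

open InjH90 in
theorem p_INJ_h90 (hEMB : S_EMB) (hLAM : S_LAM) (hCONJ : S_CONJ) (hCL2 : S_CL2) : S_INJ := by
  classical
  intro n M hM
  obtain ⟨T, hT⟩ := hCONJ
  obtain ⟨hL1, hL2⟩ := hLAM
  have hn : 3 ≤ n := by omega
  have key : ∀ s ∈ GS n M, 0 ∉ s → (∀ d ∈ s, 1 ≤ d) ∧ (∀ d ∈ lam s, 1 ≤ d) ∧
      (lam s).sum + n = 2 * M := by
    intro s hs h0
    have hpos : ∀ d ∈ s, 1 ≤ d := by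
      intro d hd
      by_contra hc
      have : d = 0 := by omega
      exact h0 (this ▸ hd)
    obtain ⟨e1, e2, -⟩ := hL2 s hpos
    refine ⟨hpos, e2, ?_⟩
    rw [card_of hs, hs.2] at e1
    exact e1
  refine Set.ncard_le_ncard_of_injOn
    (fun s => if 0 ∈ s then p1 s else emb n M (mu T (lam s))) ?_ ?_ (fin_GS n (M + 1))
  · intro s hs
    by_cases h0 : 0 ∈ s
    · simp only [h0, if_true]
      exact p1_mem hCL2 hn hs h0
    · simp only [h0, if_false]
      obtain ⟨hpos, hlp, hsum⟩ := key s hs h0
      obtain ⟨t1, t2, t3, t4, t5⟩ := hT (lam s) hlp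
      unfold mu
      split_ifs with h1 h2
      · exact (hEMB n M (lam s).sum (n - M) (lam s) (by omega) (by omega) (by omega) hlp rfl).1 h1
      · exact (hEMB n M (lam s).sum (n - M) (lam s) (by omega) (by omega) (by omega) hlp
          rfl).2.1 (by omega) h2
      · have hne : lam s ≠ 0 := by intro h; rw [h] at h1; simp at h1
        have hc := Multiset.card_pos.2 hne
        exact (hEMB n M (lam s).sum (n - M) (T (lam s)) (by omega) (by omega) (by omega) t1
          t2).2.2 (by omega) (by omega)
  · intro s hs s' hs' he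
    simp only at he
    have hAB : ∀ s ∈ GS n M, ∀ s' ∈ GS n M, 0 ∈ s → 0 ∉ s' →
        p1 s = emb n M (mu T (lam s')) → False := by
      intro s hs s' hs' h0 h0' he
      obtain ⟨hpos, hlp, hsum⟩ := key s' hs' h0'
      obtain ⟨t1, t2, t3, t4, t5⟩ := hT (lam s') hlp
      have hmp := mu_pos hlp t1 t4
      obtain ⟨hc, hs1⟩ := mu_count hlp t4 t3
      set m := mu T (lam s') with hm
      have hcm : 2 ≤ (emb n M m).count (m.sup + 1) := by
        unfold emb
        rw [Multiset.count_add, Multiset.count_add,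
          Multiset.count_map_eq_count' _ _ (add_left_injective 1)]
        omega
      have hall : ∀ y ∈ emb n M m, y ≤ m.sup + 1 := by
        intro y hy
        unfold emb at hy
        rw [Multiset.mem_add, Multiset.mem_add, Multiset.mem_map] at hy
        rcases hy with (⟨z, hz, rfl⟩ | hy) | hy
        · have := Multiset.le_sup hz
          omega
        · rw [Multiset.eq_of_mem_replicate hy]; omega
        · rw [Multiset.eq_of_mem_replicate hy]; omega
      have hmem : m.sup + 1 ∈ emb n M m := Multiset.count_pos.1 (by omega)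
      rw [← he] at hcm hall hmem
      have := p1_count (m.sup + 1) hall (by omega) hmem
      omega
    by_cases h0 : 0 ∈ s <;> by_cases h0' : 0 ∈ s'
    · simp only [h0, h0', if_true] at he
      exact p1_inj hn hs h0 hs' h0' he
    · simp only [h0, h0', if_true, if_false] at he
      exact (hAB s hs s' hs' h0 h0' he).elim
    · simp only [h0, h0', if_true, if_false] at he
      exact (hAB s' hs' s hs h0' h0 he.symm).elim
    · simp only [h0, h0', if_false] at he
      obtain ⟨hpos, hlp, hsum⟩ := key s hs h0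
      obtain ⟨hpos', hlp', hsum'⟩ := key s' hs' h0'
      obtain ⟨t1, t2, t3, t4, t5⟩ := hT (lam s) hlp
      obtain ⟨t1', t2', t3', t4', t5'⟩ := hT (lam s') hlp'
      have e1 := congrArg lam he
      rw [hL1 n M _ (mu_pos hlp t1 t4), hL1 n M _ (mu_pos hlp' t1' t4')] at e1
      have e2 : lam s = lam s' := mu_inj t4 t2 t5 t4' t2' t5' (by omega) e1
      have e3 := (hL2 s hpos).2.2
      have e4 := (hL2 s' hpos').2.2
      rw [e3, e4, e2, card_of hs, card_of hs']

end Pool.Agent.Work.MP_0eb8a1_h84
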